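import Pool.Agent.Lib.MP_bc213e_ag.TE.C.Cech
import Pool.Agent.Lib.MP_bc213e_ag.TE.Defs

/-! The lattices of regular tensors. -/

namespace Pool.Agent.Lib.MP_bc213e_ag.TE

open Pool.Agent.Lib.MP_bc213e_ag.Hyp Pool.Agent.Lib.MP_bc213e_ag.OW WithZero MvPolynomial

variable {K : Type} [Field K] [Algebra ℂ K] {n k p : ℕ} {A : Subalgebra ℂ K}

/-- The derivations preserve the local rings of the prime divisors up to a fixed denominator. -/
theorem der_den (hA : A.FG) [IsFractionRing A K] (D : Fin n → Derivation ℂ K K) :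
    ∃ c ∈ A, c ≠ 0 ∧ ∀ w, PrimeDiv A w → ∀ a u, w u ≤ 1 → w (c * D a u) ≤ 1 := by
  obtain ⟨S, hS⟩ := hA
  obtain ⟨c, hc⟩ := IsLocalization.exist_integer_multiples_of_finite (nonZeroDivisors A)
    fun z : Fin n × S => D z.1 z.2
  have h1 : ∀ a, ∀ r ∈ A, (c : A) * D a r ∈ A := fun a r hr => by
    have h2 : ∀ r ∈ Algebra.adjoin ℂ (S : Set K), r ∈ A := fun r h => hS ▸ h
    rw [← hS] at hr
    induction hr using Algebra.adjoin_induction with
    | mem r hr =>
      obtain ⟨z, hz⟩ := hc (a, ⟨r, hr⟩)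
      have e : (z : K) = (c : A) * D a r := hz
      exact e ▸ z.2
    | algebraMap z =>
      rw [Derivation.map_algebraMap, mul_zero]
      exact zero_mem _
    | add r s _ _ h h' =>
      rw [map_add, mul_add]
      exact add_mem h h'
    | mul r s hr hs h h' =>
      rw [Derivation.leibniz, smul_eq_mul, smul_eq_mul, mul_add, mul_left_comm, mul_left_comm _ s]
      exact add_mem (mul_mem (h2 r hr) h') (mul_mem (h2 s hs) h)
  refine ⟨(c : A), (c : A).2, fun h => nonZeroDivisors.coe_ne_zero c (Subtype.ext h),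
    fun w hw a u hu => ?_⟩
  obtain ⟨b, hb, h2, h3⟩ := hw.2.2 u hu
  have e : b * (((c : A) : K) * D a u) = (c : A) * D a (b * u) - u * ((c : A) * D a b) := by
    rw [Derivation.leibniz, smul_eq_mul, smul_eq_mul]
    ring
  have h4 : w (b * (((c : A) : K) * D a u)) ≤ 1 := by
    rw [e]
    refine w.map_sub_le (hw.2.1 _ (h1 a _ h3)) ?_
    rw [map_mul]
    exact mul_le_one' hu (hw.2.1 _ (h1 a _ hb))
  rwa [map_mul, h2, one_mul] at h4

section ring

variable {P : Type} [CommRing P] [Algebra K P] [Algebra ℂ P] (D : Fin n → Derivation ℂ K K)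
  (ξ : Fin k × Fin n → P) (c : Fin p → Fin k)

omit [Algebra ℂ P] in
theorem prod_dT (u : Fin p → K) : ∏ r, dT D ξ (c r) (u r) =
    ∑ a : Fin p → Fin n, (∏ r, D (a r) (u r)) • ∏ r, ξ (c r, a r) := by
  simp only [dT]
  rw [Finset.prod_univ_sum, Fintype.piFinset_univ]
  exact Finset.sum_congr rfl fun a _ => Finset.prod_smul _ _ _

variable {D ξ c} in
theorem reg_smul [IsScalarTower ℂ K P] {w : ZVal K} {e e' : ℤ} {f : K} {T : P}
    (hT : T ∈ Reg D ξ c w e) (hf : w f ≤ exp e') : f • T ∈ Reg D ξ c w (e + e') := by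
  induction hT using Submodule.span_induction with
  | mem T hT =>
    obtain ⟨f', u, h1, h2, rfl⟩ := hT
    refine Submodule.subset_span ⟨f * f', u, ?_, h2, smul_smul _ _ _⟩
    rw [map_mul, add_comm, exp_add]
    exact mul_le_mul' hf h1
  | zero =>
    rw [smul_zero]
    exact zero_mem _
  | add _ _ _ _ h h' =>
    rw [smul_add]
    exact add_mem h h'
  | smul z T _ h =>
    rw [smul_comm]
    exact Submodule.smul_mem _ z h

omit [Algebra ℂ P] in
theorem dT_tau {τ : Fin n → K} (hD : ∀ a b, D a (τ b) = if a = b then 1 else 0) (s : Fin k)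
    (b : Fin n) (q : K) :
    (q ^ 2) • ξ (s, b) = ∑ o : Bool, cond o q (-(q * τ b)) • dT D ξ s (cond o (q * τ b) q) := by
  rw [Fintype.sum_bool, cond_true, cond_true, cond_false, cond_false, dT, dT, Finset.smul_sum,
    Finset.smul_sum, ← Finset.sum_add_distrib, Finset.sum_eq_single b]
  · rw [smul_smul, smul_smul, ← add_smul, Derivation.leibniz, hD, if_pos rfl]
    refine congrArg (· • _) ?_
    simp only [smul_eq_mul]
    ring
  · intro a _ h
    rw [smul_smul, smul_smul, ← add_smul, Derivation.leibniz, hD, if_neg h]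
    refine smul_eq_zero_of_left ?_ _
    simp only [smul_eq_mul]
    ring
  · exact fun h => absurd (Finset.mem_univ b) h

theorem mon_reg {τ : Fin n → K} (hD : ∀ a b, D a (τ b) = if a = b then 1 else 0) {w : ZVal K}
    {q : K} (h1 : w q ≤ 1) (h2 : ∀ b, w (q * τ b) ≤ 1) (a : Fin p → Fin n) :
    (q ^ 2) ^ p • ∏ r, ξ (c r, a r) ∈ Reg D ξ c w 0 := by
  have e : (q ^ 2) ^ p • ∏ r, ξ (c r, a r) = ∏ r, (q ^ 2) • ξ (c r, a r) := by
    rw [Finset.prod_smul, Finset.prod_const, Finset.card_univ, Fintype.card_fin]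
  rw [e]
  simp only [dT_tau D ξ hD]
  rw [Finset.prod_univ_sum]
  refine sum_mem fun o _ => Submodule.subset_span ⟨_, _, ?_, fun r => ?_, Finset.prod_smul _ _ _⟩
  · rw [map_prod, exp_zero]
    refine Finset.prod_le_one' fun r _ => ?_
    cases o r
    · rw [cond_false, Valuation.map_neg]
      exact h2 _
    · exact h1
  · cases o r
    · exact h1
    · exact h2 _

/-- The exponent of a monomial. -/
noncomputable def ex (a : Fin p → Fin n) : Fin k × Fin n →₀ ℕ := ∑ r, Finsupp.single (c r, a r) 1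

omit [Algebra ℂ K] [Algebra ℂ P] in
theorem aeval_ex (a : Fin p → Fin n) :
    aeval ξ (monomial (ex c a) (1 : K)) = ∏ r, ξ (c r, a r) := by
  rw [ex, monomial_sum_one, map_prod]
  exact Finset.prod_congr rfl fun r _ => aeval_X ξ (c r, a r)

end ring

variable {K' : Type} [Field K'] [Algebra ℂ K'] [Algebra K K'] [IsScalarTower ℂ K K']

theorem exists_lat {τ : Fin n → K} {D : Fin n → Derivation ℂ K K}
    (hD : ∀ a b, D a (τ b) = if a = b then 1 else 0) {ξ : Fin k × Fin n → K'}
    (hξ : AlgebraicIndependent K ξ) (c : Fin p → Fin k) :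
    ∃ (I : Type) (_ : Fintype I) (Λ : Lat K K' I), Λ.R = Reg D ξ c ∧
      Λ.sp = (Mon K ξ c).restrictScalars ℂ := by
  classical
  have fin : Fintype (Set.range (ex (n := n) c)) := Fintype.ofFinite _
  let μ : Set.range (ex (n := n) c) → K' := fun β => aeval ξ (monomial β.1 (1 : K))
  have hμ : ∀ a, μ ⟨_, a, rfl⟩ = ∏ r, ξ (c r, a r) := aeval_ex ξ c
  have ind : LinearIndependent K μ :=
    ((basisMonomials (Fin k × Fin n) K).linearIndependent.map' (aeval ξ).toLinearMap
      (LinearMap.ker_eq_bot.2 hξ)).comp _ Subtype.val_injective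
  refine ⟨_, fin, ⟨μ, ind, Reg D ξ c, fun w e e' f T hT hf => ?_, fun A hA _ => ?_⟩, rfl, ?_⟩
  · rw [← Algebra.smul_def]
    exact reg_smul hT hf
  · obtain ⟨d, d1, d0, hd⟩ := der_den hA D
    obtain ⟨q, hq⟩ := IsLocalization.exist_integer_multiples_of_finite (nonZeroDivisors A) τ
    have q0 : ((q : A) : K) ≠ 0 := fun h => nonZeroDivisors.coe_ne_zero q (Subtype.ext h)
    refine ⟨d ^ p * ((q : A) ^ 2) ^ p, mul_mem (pow_mem d1 p) (pow_mem (pow_mem (q : A).2 2) p),
      mul_ne_zero (pow_ne_zero _ d0) (pow_ne_zero _ (pow_ne_zero _ q0)),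
      fun w hw => ⟨fun T hT => ?_, ?_⟩⟩
    · have h1 : ∀ T T' : K', (∃ a : Set.range (ex (n := n) c) → K,
          (∀ i, w (d ^ p * a i) ≤ 1) ∧ T = ∑ i, a i • μ i) →
          (∃ a : Set.range (ex (n := n) c) → K, (∀ i, w (d ^ p * a i) ≤ 1) ∧ T' = ∑ i, a i • μ i) →
          ∃ a : Set.range (ex (n := n) c) → K,
            (∀ i, w (d ^ p * a i) ≤ 1) ∧ T + T' = ∑ i, a i • μ i := by
        rintro _ _ ⟨a, ha, rfl⟩ ⟨a', ha', rfl⟩
        refine ⟨a + a', fun i => ?_, by simp only [Pi.add_apply, add_smul, Finset.sum_add_distrib]⟩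
        rw [Pi.add_apply, mul_add]
        exact w.map_add_le (ha i) (ha' i)
      suffices h : ∃ a : Set.range (ex (n := n) c) → K,
          (∀ i, w (d ^ p * a i) ≤ 1) ∧ T = ∑ i, a i • μ i by
        obtain ⟨a, ha, e⟩ := h
        refine ⟨a, fun i => ?_, e⟩
        rw [mul_right_comm, map_mul]
        exact mul_le_one' (ha i) (hw.2.1 _ (pow_mem (pow_mem (q : A).2 2) p))
      induction hT using Submodule.span_induction with
      | mem T hT =>
        obtain ⟨f, u, h2, h3, rfl⟩ := hT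
        rw [prod_dT, Finset.smul_sum]
        refine Finset.sum_induction _ (fun T => ∃ a : Set.range (ex (n := n) c) → K,
          (∀ i, w (d ^ p * a i) ≤ 1) ∧ T = ∑ i, a i • μ i) h1 ⟨0, by simp, by simp⟩ fun a _ => ?_
        refine ⟨Pi.single ⟨_, a, rfl⟩ (f * ∏ r, D (a r) (u r)), fun i => ?_, ?_⟩
        · rw [Pi.single_apply]
          split_ifs
          · have e : d ^ p * (f * ∏ r, D (a r) (u r)) = f * ∏ r, d * D (a r) (u r) := by
              rw [Finset.prod_mul_distrib, Finset.prod_const, Finset.card_univ, Fintype.card_fin]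
              ring
            rw [e, map_mul, map_prod]
            exact mul_le_one' h2 (Finset.prod_le_one' fun r _ => hd w hw _ _ (h3 r))
          · simp
        · rw [Finset.sum_eq_single ⟨_, a, rfl⟩ (fun i _ h => by rw [Pi.single_eq_of_ne h, zero_smul])
            fun h => absurd (Finset.mem_univ _) h, Pi.single_eq_same, hμ, smul_smul]
      | zero => exact ⟨0, by simp, by simp⟩
      | add _ _ _ _ h h' => exact h1 _ _ h h'
      | smul z T _ h =>
        obtain ⟨a, ha, rfl⟩ := h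
        refine ⟨fun i => algebraMap ℂ K z * a i, fun i => ?_, ?_⟩
        · rw [mul_left_comm, map_mul]
          exact mul_le_one' (hw.2.1 _ (A.algebraMap_mem z)) (ha i)
        · rw [Finset.smul_sum]
          exact Finset.sum_congr rfl fun i _ => by rw [mul_smul, algebraMap_smul]
    · rintro ⟨_, a, rfl⟩
      rw [hμ, ← Algebra.smul_def, mul_smul]
      simpa using reg_smul (e' := 0) (f := d ^ p) (mon_reg D ξ c hD (hw.2.1 _ (q : A).2)
        (fun b => by
          obtain ⟨z, hz⟩ := hq b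
          have e : (z : K) = (q : A) * τ b := hz
          exact e ▸ hw.2.1 _ z.2) a) (hw.2.1 _ (pow_mem d1 p))
  · refine congrArg (fun S => (Submodule.span K S).restrictScalars ℂ) (Set.ext fun T => ?_)
    exact ⟨fun ⟨⟨_, a, h⟩, e⟩ => ⟨a, by subst h; exact (hμ a).symm.trans e⟩,
      fun ⟨a, e⟩ => ⟨⟨_, a, rfl⟩, (hμ a).trans e⟩⟩

end Pool.Agent.Lib.MP_bc213e_ag.TE
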