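import Pool.Agent.Lib.MP_bc213e_ag.TE.C.Sec
import Pool.Agent.Lib.MP_bc213e_ag.OW.F.Common
import Pool.Agent.Lib.MP_bc213e_ag.KBF.Link

/-! The Euler characteristic is the constant term of the Hilbert polynomial. -/

namespace Pool.Agent.Lib.MP_bc213e_ag.TE.Lat

open Pool.Agent.Lib.MP_bc213e_ag.Hyp Pool.Agent.Lib.MP_bc213e_ag.KBB Pool.Agent.Lib.MP_bc213e_ag.OW
  WithZero Module Filter Ce

variable {K K' I : Type} [Field K] [Algebra ℂ K] [Field K'] [Algebra ℂ K'] [Algebra K K']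
  [IsScalarTower ℂ K K'] [Fintype I] (Λ : Lat K K' I) {N : ℕ} {x : Fin (N + 1) → Kˣ}

/-- Sections of the twist by `L` over the intersection of the charts in `σ`. -/
def TS (L : Prm x →₀ ℤ) (σ : Finset (Fin (N + 1))) : Submodule ℂ K' :=
  Λ.sp ⊓ ⨅ (w : Prm x) (_ : ∀ i ∈ σ, PrimeDiv (chart x i) w.1), Λ.R w.1 (L w)

theorem mem_TS {L : Prm x →₀ ℤ} {σ : Finset (Fin (N + 1))} {T : K'} : T ∈ Λ.TS L σ ↔
    T ∈ Λ.sp ∧ ∀ w : Prm x, (∀ i ∈ σ, PrimeDiv (chart x i) w.1) → T ∈ Λ.R w.1 (L w) := by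
  simp only [TS, Submodule.mem_inf, Submodule.mem_iInf]

/-- Global sections of the twist by `L + a H`. -/
def Tw (L : Prm x →₀ ℤ) (a : ℕ) : Submodule ℂ K' :=
  ⨅ i, (Λ.TS L {i}).comap (LinearMap.mulRight ℂ (algebraMap K K' ((x i : K) ^ a)⁻¹))

theorem mem_Tw {L : Prm x →₀ ℤ} {a : ℕ} {T : K'} : T ∈ Λ.Tw L a ↔ T ∈ Λ.sp ∧
    ∀ i (w : Prm x), PrimeDiv (chart x i) w.1 →
      algebraMap K K' ((x i : K) ^ a)⁻¹ * T ∈ Λ.R w.1 (L w) := by
  simp only [Tw, Submodule.mem_iInf, Submodule.mem_comap, LinearMap.mulRight_apply, mem_TS,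
    Finset.mem_singleton, forall_eq, mul_comm T]
  refine ⟨fun h => ⟨?_, fun i => (h i).2⟩, fun h i => ⟨Λ.sp_mul _ h.1, h.2 i⟩⟩
  have h1 := Λ.sp_mul ((x 0 : K) ^ a) (h 0).1
  rwa [← mul_assoc, ← map_mul, mul_inv_cancel₀ (pow_ne_zero _ (x 0).ne_zero), map_one,
    one_mul] at h1

theorem exists_coh (normal : ∀ i, IsFractionRing (chart x i) K ∧ IsIntegrallyClosed (chart x i))
    (L : Prm x →₀ ℤ) : ∃ M : Coh (up K' x), (∀ a, M.Γ a ∅ = Λ.Tw L a) ∧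
      ∀ σ, σ.Nonempty → M.Γ 0 σ = Λ.TS L σ := by
  classical
  let k : ZVal K → ℤ := fun w => if h : ∃ i, PrimeDiv (chart x i) w then L ⟨w, h⟩ else 0
  have hk : ∀ w : Prm x, k w.1 = L w := fun w => dif_pos w.2
  have mem : ∀ i T, T ∈ Λ.M x k i ↔ T ∈ Λ.sp ∧
      ∀ w : Prm x, PrimeDiv (chart x i) w.1 → T ∈ Λ.R w.1 (L w) := fun i T =>
    and_congr_right fun _ => ⟨fun h w hw => hk w ▸ h w.1 hw,
      fun h w hw => (hk ⟨w, i, hw⟩).symm ▸ h ⟨w, i, hw⟩ hw⟩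
  let M : Coh (up K' x) := ⟨Λ.M x k, fun i => by
    have := (normal i).1
    have := (normal i).2
    obtain ⟨d, -, d0, hd⟩ := diva_den L (chart x i)
    exact Λ.M_fg d0 fun w hw => (hk ⟨w, i, hw⟩).symm ▸ hd ⟨w, i, hw⟩ hw,
    fun i l r hr => Λ.M_glue (fun i => (normal i).1) k i l hr⟩
  have e1 : ∀ σ i, pr (up K' x) σ i = algebraMap K K' (pr x σ i) := fun σ i => by
    rw [Ce.pr, Ce.pr, map_prod]
    exact Finset.prod_congr rfl fun j _ => up_div K' x j i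
  refine ⟨M, fun a => ?_, fun σ ⟨i, hi⟩ => ?_⟩
  · ext r
    rw [M.mem_Γ_empty, Tw, Submodule.mem_iInf]
    refine forall_congr' fun i => (mem i _).trans ?_
    rw [Submodule.mem_comap, LinearMap.mulRight_apply, mem_TS, coe_up, map_inv₀, map_pow,
      div_eq_mul_inv]
    simp only [Finset.mem_singleton, forall_eq]
  · have := (normal i).1
    ext r
    rw [M.mem_Γ_iff hi, pow_zero, div_one, mem_TS, e1]
    refine ⟨fun ⟨e, he⟩ => ?_, fun h => Λ.M_pow h.1 (pr_mem σ i) fun w hw h1 =>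
      (hk ⟨w, i, hw⟩).symm ▸ h.2 ⟨w, i, hw⟩ ((div_pr hw σ).1 h1)⟩
    obtain ⟨h1, h2⟩ := (mem i _).1 he
    have h0 : pr x σ i ^ e ≠ 0 := pow_ne_zero _ (Finset.prod_ne_zero_iff.2 fun j _ =>
      div_ne_zero (x j).ne_zero (x i).ne_zero)
    rw [← map_pow, mul_comm] at h1 h2
    refine ⟨?_, fun w hw => ?_⟩
    · have h3 := Λ.sp_mul (pr x σ i ^ e)⁻¹ h1
      rwa [← mul_assoc, ← map_mul, inv_mul_cancel₀ h0, map_one, one_mul] at h3
    · refine (Λ.mul_iff (k' := 0) (f := pr x σ i ^ e) ?_).1 ?_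
      · rw [map_pow, (div_pr (hw i hi) σ).2 hw, one_pow, exp_zero]
      · rw [add_zero]
        exact h2 w (hw i hi)

theorem cech (normal : ∀ i, IsFractionRing (chart x i) K ∧ IsIntegrallyClosed (chart x i))
    (L : Prm x →₀ ℤ) : ∃ p : Polynomial ℚ, p.eval 0 = (chi (Λ.TS L) : ℚ) ∧
      ∀ᶠ a : ℕ in atTop, (finrank ℂ (Λ.Tw L a) : ℚ) = p.eval (a : ℚ) := by
  obtain ⟨M, h1, h2⟩ := Λ.exists_coh normal L
  obtain ⟨-, p, hp⟩ := Coh.pol 0 M (Coh.bot _) fun _ => bot_le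
  obtain ⟨a₀, h3⟩ := M.large 0
  simp only [C_bot 0] at hp
  refine ⟨p, ?_, (eventually_ge_atTop a₀).mono fun a ha => ?_⟩
  · rw [chi_eq h2]
    exact_mod_cast (hp 0).symm
  · rw [← hp, ← h1, eul, Finset.sum_range_succ', Finset.sum_eq_zero fun p _ => by
      rw [(h3 a ha).2 p]; simp, M.hP_zero 0]
    simp [Module.finrank]

variable {κ : Type} {L : Prm x →₀ ℤ} (E : Emb L κ)

theorem emb_val (b : κ) {w : ZVal K} (hw : PrimeDiv (chart E.x' b) w) :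
    w ((E.x' b : K) * E.u) = w ((x (E.j b) : K) ^ E.k) := by
  have h1 := (E.loc b).primeDiv hw
  have h2 : Sec E.x' E.g' (0 : ℕ) 1 (E.x' b) := fun l => by
    simpa using Basic_mem E.x' l b
  have h3 := (E.sec 0 1 _).1 h2 (E.j b) ⟨w, _, h1⟩ (by simpa using h1)
  have h4 : Sec E.x' E.g' (0 : ℕ) 1 ((x (E.j b) : K) ^ E.k / E.u) := (E.sec 0 1 _).2 fun l v hv => by
    rw [pow_one, div_mul_cancel₀ _ E.u.ne_zero, mul_one, ← div_pow, zero_smul, Finsupp.zero_apply,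
      exp_zero]
    exact (hv l (Finset.mem_singleton_self l)).2.1 _ (pow_mem (Basic_mem x l _) _)
  have h5 := hw.2.1 _ (h4 b)
  rw [pow_one, mul_one, zero_smul, Finsupp.zero_apply, exp_zero, map_div₀,
    div_le_one₀ (by rw [map_pow]; exact pow_pos (Basic_pos w _) _)] at h3
  rw [Nat.cast_zero, zpow_zero, one_mul, pow_one, div_div, mul_comm, map_div₀,
    div_le_one₀ (by rw [map_mul]; exact mul_pos (Basic_pos w _) (Basic_pos w _))] at h5
  exact le_antisymm h3 h5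

theorem emb_cover [Fintype κ] {i : Fin (N + 1)} {w : ZVal K} (hw : PrimeDiv (chart x i) w) :
    ∃ b, PrimeDiv (chart E.x' b) w := by
  obtain ⟨b, -, hb⟩ := Finset.exists_max_image Finset.univ (fun b => w (E.x' b : K))
    ⟨E.k₀, Finset.mem_univ _⟩
  have h1 : ∀ r ∈ chart E.x' b, w r ≤ 1 := Basic_le w
    (fun c => hw.2.1 _ ((chart x i).algebraMap_mem c)) E.x' b fun l => hb l (Finset.mem_univ l)
  have h2 := h1 _ ((E.loc b).1 (Basic_mem x (E.j b) i))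
  have h3 := hw.2.1 _ (Basic_mem x i (E.j b))
  refine ⟨b, primeDiv_of_le (E.loc b).1 ((primeDiv_chart hw _).2 (le_antisymm h3 ?_)) h1⟩
  rw [map_div₀, div_le_one₀ (Basic_pos w _)] at h2
  rwa [map_div₀, one_le_div₀ (Basic_pos w _)]

theorem emb_mem [Fintype κ] (t a : ℕ) (T : K') : T ∈ Λ.SE E.x' E.g' t a ↔
    algebraMap K K' ((E.u : K) ^ a) * T ∈ Λ.Tw (t • L) (E.k * a) := by
  have : Nonempty κ := ⟨E.k₀⟩
  have hu : (E.u : K) ^ a ≠ 0 := pow_ne_zero _ E.u.ne_zero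
  have key : ∀ (b : κ) (i : Fin (N + 1)) (w : Prm x), PrimeDiv (chart E.x' b) w.1 →
      PrimeDiv (chart x i) w.1 → (T / algebraMap K K' (fr E.x' E.g' t a b) ∈ Λ.R w.1 0 ↔
        algebraMap K K' ((x i : K) ^ (E.k * a))⁻¹ * (algebraMap K K' ((E.u : K) ^ a) * T) ∈
          Λ.R w.1 ((t • L) w)) := fun b i w hb hi => by
    have h1 := (primeDiv_chart hi (E.j b)).1 ((E.loc b).primeDiv hb)
    rw [map_div₀, div_eq_one_iff_eq (Basic_pos w.1 _).ne'] at h1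
    have h2 := emb_val E b hb
    have h3 : w.1 (((x i : K) ^ (E.k * a))⁻¹ * (E.u : K) ^ a * fr E.x' E.g' t a b) =
        exp ((t • L) w) := by
      have e : ((x i : K) ^ (E.k * a))⁻¹ * (E.u : K) ^ a * fr E.x' E.g' t a b =
          (E.g' b : K) ^ t * ((E.x' b : K) * E.u / (x i : K) ^ E.k) ^ a := by
        rw [fr, zpow_natCast, div_pow, mul_pow, pow_mul]
        ring
      rw [e, map_mul, map_pow, map_pow, map_div₀, h2, map_pow, map_pow, h1,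
        div_self (pow_pos (Basic_pos w.1 _) _).ne', one_pow, mul_one, E.eqn b w hb, ← exp_nsmul,
        Finsupp.smul_apply]
    rw [← Λ.mul_iff h3, zero_add, map_mul, map_mul, mul_assoc, mul_assoc,
      mul_div_cancel₀ _ ((map_ne_zero _).2 (fr_ne _ _ _ _ _))]
  rw [mem_SE, mem_Tw]
  refine ⟨fun h => ⟨Λ.sp_mul _ h.1, fun i w hw => ?_⟩, fun h => ⟨?_, fun b w hw => ?_⟩⟩
  · obtain ⟨b, hb⟩ := emb_cover E hw
    exact (key b i w hb hw).1 (h.2 b w.1 hb)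
  · have h1 := Λ.sp_mul ((E.u : K) ^ a)⁻¹ h.1
    rwa [← mul_assoc, ← map_mul, inv_mul_cancel₀ hu, map_one, one_mul] at h1
  · have h1 := (E.loc b).primeDiv hw
    exact (key b _ ⟨w, _, h1⟩ hw h1).2 (h.2 _ ⟨w, _, h1⟩ h1)

theorem emb_rank [Fintype κ] (t a : ℕ) :
    finrank ℂ (Λ.SE E.x' E.g' t a) = finrank ℂ (Λ.Tw (t • L) (E.k * a)) := by
  have hu : algebraMap K K' ((E.u : K) ^ a) ≠ 0 := (map_ne_zero _).2 (pow_ne_zero _ E.u.ne_zero)
  let e : K' ≃ₗ[ℂ] K' := LinearEquiv.ofBijective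
    (LinearMap.mulLeft ℂ (algebraMap K K' ((E.u : K) ^ a)))
    ⟨mul_right_injective₀ hu, fun z => ⟨z / _, mul_div_cancel₀ z hu⟩⟩
  suffices k : (Λ.SE E.x' E.g' t a).map (e : K' →ₗ[ℂ] K') = Λ.Tw (t • L) (E.k * a) by
    rw [← k, e.finrank_map_eq]
  ext z
  constructor
  · rintro ⟨s, hs, rfl⟩
    exact (Λ.emb_mem E t a s).1 hs
  · intro hz
    refine ⟨z / _, (Λ.emb_mem E t a _).2 ?_, mul_div_cancel₀ z hu⟩
    rwa [mul_div_cancel₀ z hu]

theorem emb_main [Fintype κ]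
    (normal : ∀ i, IsFractionRing (chart x i) K ∧ IsIntegrallyClosed (chart x i))
    (nef : IsNef L) : ∃ (P : MvPolynomial (Fin 2) ℚ) (a₀ e : ℕ),
      (∀ t a : ℕ, FiniteDimensional ℂ (Λ.SE E.x' E.g' t a) ∧ finrank ℂ (Λ.SE E.x' E.g' t a) ≤
        Fintype.card I * finrank ℂ (SecS E.x' E.g' t (a + e))) ∧
      (∀ t a : ℕ, a₀ ≤ a →
        (finrank ℂ (Λ.SE E.x' E.g' t a) : ℚ) = MvPolynomial.eval ![(t : ℚ), (a : ℚ)] P) ∧
      ∀ t : ℕ, (chi (Λ.TS (t • L)) : ℚ) = MvPolynomial.eval ![(t : ℚ), 0] P := by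
  have : Nonempty κ := ⟨E.k₀⟩
  have hn := E.nef (fun i => (normal i).1) nef
  obtain ⟨P, a₀, hP⟩ := Λ.uniform (E.normal normal) E.cart hn
  obtain ⟨e, he⟩ := Λ.bound (E.normal normal) E.g'
  obtain ⟨_, a₁, h1⟩ := KBB.uniform E.x' E.g' E.cart hn
  refine ⟨P, a₀, e, fun t a => he t a ?_, fun t a ha => (hP t a ha).2, fun t => ?_⟩
  · have := (h1 t (a + e + a₁) (by omega)).1
    refine Submodule.finiteDimensional_of_le (S₂ := SecS E.x' E.g' t (a + e + a₁)) fun s hs => ?_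
    refine sec_iff_fr.2 fun i => ?_
    have h2 := uni_div (x := E.x') (g := E.g') t (a + e) a₁ ((E.x' E.k₀ : K) ^ a₁) s i
    rw [← div_pow] at h2
    nth_rewrite 1 [E.one] at h2
    rw [Units.val_one, one_pow, mul_one] at h2
    rw [h2]
    exact mul_mem (hs i) (pow_mem (Basic_mem _ _ _) _)
  · choose p h0 h2 using fun t : ℕ => Λ.cech normal (t • L)
    have h3 : Tendsto (fun a : ℕ => E.k * a) atTop atTop :=
      tendsto_atTop_mono (fun a => Nat.le_mul_of_pos_left a E.kpos) tendsto_id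
    have h4 := KBF.link (h := fun t a => finrank ℂ (Λ.SE E.x' E.g' t a))
      (fun t a ha => (hP t a ha).2)
      (p := fun t => (p t).comp (Polynomial.C (E.k : ℚ) * Polynomial.X)) (fun t => by
        filter_upwards [h3.eventually (h2 t)] with a ha
        rw [Λ.emb_rank, ha, Polynomial.eval_comp]
        simp) t
    rw [← KBF.spec_eval, ← h4, Polynomial.eval_comp, ← h0]
    simp

end Pool.Agent.Lib.MP_bc213e_ag.TE.Lat
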