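import Pool.Agent.Lib.MP_bc213e_ag.TE.C.Up
import Pool.Agent.Lib.MP_bc213e_ag.OW.E.Div

/-! Reflexive sheaves given by lattices at the prime divisors. -/

namespace Pool.Agent.Lib.MP_bc213e_ag.TE

open Pool.Agent.Lib.MP_bc213e_ag.Hyp Pool.Agent.Lib.MP_bc213e_ag.KBB Pool.Agent.Lib.MP_bc213e_ag.OW
  WithZero

/-- A family of lattices `R w k` in the span of the independent elements `ξ`. -/
structure Lat (K K' I : Type) [Field K] [Algebra ℂ K] [Field K'] [Algebra ℂ K'] [Algebra K K']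
    [Fintype I] where
  ξ : I → K'
  ind : LinearIndependent K ξ
  R : ZVal K → ℤ → Submodule ℂ K'
  mul : ∀ w k k' f, ∀ T ∈ R w k, w f ≤ exp k' → algebraMap K K' f * T ∈ R w (k + k')
  den : ∀ A : Subalgebra ℂ K, A.FG → IsFractionRing A K → ∃ c ∈ A, c ≠ 0 ∧ ∀ w, PrimeDiv A w →
    (∀ T ∈ R w 0, ∃ a : I → K, (∀ i, w (c * a i) ≤ 1) ∧ T = ∑ i, a i • ξ i) ∧
      ∀ i, algebraMap K K' c * ξ i ∈ R w 0

theorem chart_fg {K ι : Type} [Field K] [Algebra ℂ K] [Finite ι] (x : ι → Kˣ) (i : ι) :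
    (chart x i).FG := Subalgebra.fg_def.2 ⟨_, Set.finite_range _, rfl⟩

namespace Lat

variable {K K' I : Type} [Field K] [Algebra ℂ K] [Field K'] [Algebra ℂ K'] [Algebra K K']
  [IsScalarTower ℂ K K'] [Fintype I] (Λ : Lat K K' I) {A : Subalgebra ℂ K}

/-- The generic fibre. -/
def sp : Submodule ℂ K' := (Submodule.span K (Set.range Λ.ξ)).restrictScalars ℂ

theorem mem_sp {T : K'} : T ∈ Λ.sp ↔ ∃ a : I → K, ∑ i, a i • Λ.ξ i = T :=
  Submodule.mem_span_range_iff_exists_fun K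

theorem sp_mul (f : K) {T : K'} (h : T ∈ Λ.sp) : algebraMap K K' f * T ∈ Λ.sp := by
  rw [← Algebra.smul_def]
  exact Submodule.smul_mem (Submodule.span K (Set.range Λ.ξ)) f h

omit [IsScalarTower ℂ K K'] in
theorem mul_one' {w : ZVal K} {k : ℤ} {f : K} {T : K'} (h : T ∈ Λ.R w k) (hf : w f ≤ 1) :
    algebraMap K K' f * T ∈ Λ.R w k := by
  simpa using Λ.mul w k 0 f T h (by simpa using hf)

omit [IsScalarTower ℂ K K'] in
theorem mul_iff {w : ZVal K} {k k' : ℤ} {f : K} {T : K'} (hf : w f = exp k') :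
    algebraMap K K' f * T ∈ Λ.R w (k + k') ↔ T ∈ Λ.R w k := by
  have h0 : f ≠ 0 := w.ne_zero_iff.1 (hf ▸ exp_ne_zero)
  refine ⟨fun h => ?_, fun h => Λ.mul w k k' f T h hf.le⟩
  have h1 := Λ.mul w _ (-k') f⁻¹ _ h (by rw [map_inv₀, hf, exp_neg])
  rwa [← mul_assoc, ← map_mul, inv_mul_cancel₀ h0, map_one, one_mul, add_neg_cancel_right] at h1

/-- A power of `u` kills the excess poles. -/
theorem pow (hA : A.FG) [IsFractionRing A K] (k : ZVal K → ℤ) {T : K'} (hT : T ∈ Λ.sp) {u : K}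
    (hu : u ∈ A) (h : ∀ w, PrimeDiv A w → w u = 1 → T ∈ Λ.R w (k w)) :
    ∃ e : ℕ, ∀ w, PrimeDiv A w → T * algebraMap K K' u ^ e ∈ Λ.R w (k w) := by
  classical
  have := isNoetherianRing_of_fg hA
  obtain ⟨c, -, c0, hc⟩ := Λ.den A hA inferInstance
  obtain ⟨a, rfl⟩ := Λ.mem_sp.1 hT
  by_cases h0 : u = 0
  · exact ⟨1, fun w _ => by simp [h0]⟩
  have h1 : ∀ (w : ZVal K) (i : I), ∃ e : ℕ, w u < 1 → w (a i / c) * w u ^ e ≤ exp (k w) := by
    intro w i
    by_cases h2 : w u < 1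
    · by_cases hr : w (a i / c) = 0
      · exact ⟨0, fun _ => by simp only [hr, zero_mul, zero_le]⟩
      obtain ⟨e, he⟩ := exists_pow_lt₀ h2 (Units.mk0 ((w (a i / c))⁻¹ * exp (k w))
        (mul_ne_zero (inv_ne_zero hr) exp_ne_zero))
      refine ⟨e, fun _ => ?_⟩
      rw [Units.val_mk0] at he
      exact (mul_le_mul_right he.le _).trans_eq (mul_inv_cancel_left₀ hr _)
    · exact ⟨0, fun h => absurd h h2⟩
  choose f hf using h1
  have h3 := finite_supp (A := A) h0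
  refine ⟨h3.toFinset.sup fun w => Finset.univ.sup (f w), fun w hw => ?_⟩
  have h4 := hw.2.1 u hu
  rw [← map_pow, mul_comm]
  by_cases h2 : w u = 1
  · exact Λ.mul_one' (h w hw h2) (by rw [map_pow, h2, one_pow])
  rw [Finset.mul_sum]
  refine sum_mem fun i _ => ?_
  have h5 : f w i ≤ h3.toFinset.sup fun w => Finset.univ.sup (f w) :=
    (Finset.le_sup (Finset.mem_univ i)).trans
      (Finset.le_sup (f := fun w => Finset.univ.sup (f w)) (h3.mem_toFinset.2 ⟨hw, h2⟩))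
  generalize (h3.toFinset.sup fun w => Finset.univ.sup (f w)) = e at h5
  have h6 := Λ.mul w 0 (k w) (a i / c * u ^ e) _ ((hc w hw).2 i) (by
    rw [map_mul, map_pow]
    exact (mul_le_mul_right (pow_le_pow_right_of_le_one' h4 h5) _).trans
      (hf w i (lt_of_le_of_ne h4 h2)))
  rwa [zero_add, ← mul_assoc, ← map_mul, mul_right_comm, div_mul_cancel₀ _ c0, mul_comm (a i),
    map_mul, mul_assoc, ← Algebra.smul_def (a i)] at h6

omit [IsScalarTower ℂ K K'] in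
/-- The coefficients of the regular elements have a common denominator. -/
theorem coef (hA : A.FG) [IsFractionRing A K] [IsIntegrallyClosed A] :
    ∃ c ∈ A, c ≠ 0 ∧ ∀ a : I → K, (∀ w, PrimeDiv A w → ∑ i, a i • Λ.ξ i ∈ Λ.R w 0) →
      ∀ i, c * a i ∈ A := by
  have := isNoetherianRing_of_fg hA
  obtain ⟨c, c1, c0, hc⟩ := Λ.den A hA inferInstance
  refine ⟨c, c1, c0, fun a ha i => hartogs fun w hw => ?_⟩
  obtain ⟨a', h1, h2⟩ := (hc w hw).1 _ (ha w hw)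
  rw [funext (Fintype.linearIndependent_iffₛ.1 Λ.ind a a' h2)]
  exact h1 i

variable {ι : Type} [Finite ι] (x : ι → Kˣ)

/-- Sections on the chart `i`, with poles bounded by `k`. -/
def M (k : ZVal K → ℤ) (i : ι) : Submodule (chart (up K' x) i) K' where
  carrier := {T | T ∈ Λ.sp ∧ ∀ w, PrimeDiv (chart x i) w → T ∈ Λ.R w (k w)}
  add_mem' := fun ha hb => ⟨add_mem ha.1 hb.1, fun w hw => add_mem (ha.2 w hw) (hb.2 w hw)⟩
  zero_mem' := ⟨zero_mem _, fun _ _ => zero_mem _⟩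
  smul_mem' := fun c T hT => by
    obtain ⟨s, hs, e⟩ := mem_chart_up.1 c.2
    rw [show c • T = (c : K') * T from rfl, ← e]
    exact ⟨Λ.sp_mul s hT.1, fun w hw => Λ.mul_one' (hT.2 w hw) (hw.2.1 s hs)⟩

variable {x}

omit [Finite ι] in
theorem mem_M {k : ZVal K → ℤ} {i : ι} {T : K'} : T ∈ Λ.M x k i ↔
    T ∈ Λ.sp ∧ ∀ w, PrimeDiv (chart x i) w → T ∈ Λ.R w (k w) := Iff.rfl

theorem M_pow {k : ZVal K → ℤ} {i : ι} [IsFractionRing (chart x i) K] {T : K'} (hT : T ∈ Λ.sp)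
    {u : K} (hu : u ∈ chart x i)
    (h : ∀ w, PrimeDiv (chart x i) w → w u = 1 → T ∈ Λ.R w (k w)) :
    ∃ e : ℕ, T * algebraMap K K' u ^ e ∈ Λ.M x k i := by
  obtain ⟨e, he⟩ := Λ.pow (chart_fg x i) k hT hu h
  refine ⟨e, ?_, he⟩
  rw [← map_pow, mul_comm]
  exact Λ.sp_mul _ hT

theorem M_glue (frac : ∀ i, IsFractionRing (chart x i) K) (k : ZVal K → ℤ) (i l : ι) {T : K'}
    (h : T ∈ Λ.M x k i) : ∃ e : ℕ, T * ((up K' x i : K') / up K' x l) ^ e ∈ Λ.M x k l := by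
  have := frac l
  rw [up_div]
  exact Λ.M_pow h.1 (Basic_mem x l i) fun w hw h1 => h.2 w ((primeDiv_chart hw i).2 h1)

theorem M_fg {k : ZVal K → ℤ} {i : ι} [IsFractionRing (chart x i) K]
    [IsIntegrallyClosed (chart x i)] {d : K} (d0 : d ≠ 0)
    (hd : ∀ w, PrimeDiv (chart x i) w → w d ≤ exp (-k w)) : (Λ.M x k i).FG := by
  have := chart_noeth (up K' x) i
  obtain ⟨c, -, c0, hc⟩ := Λ.coef (chart_fg x i)
  refine Submodule.FG.of_le (Submodule.fg_span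
    (Set.finite_range fun j => (c * d)⁻¹ • Λ.ξ j)) fun T hT => ?_
  obtain ⟨a, rfl⟩ := Λ.mem_sp.1 hT.1
  have h1 := hc (fun j => d * a j) fun w hw => by
    have h2 := Λ.mul w _ _ d _ (hT.2 w hw) (hd w hw)
    rw [add_neg_cancel, ← Algebra.smul_def, Finset.smul_sum] at h2
    simpa only [smul_smul] using h2
  refine sum_mem fun j _ => ?_
  have h2 := Submodule.smul_mem (Submodule.span (chart (up K' x) i)
    (Set.range fun j => (c * d)⁻¹ • Λ.ξ j)) ⟨_, map_mem_chart (h1 j)⟩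
      (Submodule.subset_span ⟨j, rfl⟩)
  have e : algebraMap K K' (c * (d * a j)) * ((c * d)⁻¹ • Λ.ξ j) = a j • Λ.ξ j := by
    rw [← Algebra.smul_def, smul_smul, ← mul_assoc, mul_right_comm,
      mul_inv_cancel₀ (mul_ne_zero c0 d0), one_mul]
  exact e ▸ h2

end Lat

end Pool.Agent.Lib.MP_bc213e_ag.TE
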