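import Pool.Agent.Lib.MP_bc213e_ag.TE.C.Lat
import Pool.Agent.Lib.MP_bc213e_ag.OW.A.Forms

/-! Global sections on the charts of an embedding that trivialises `L`. -/

namespace Pool.Agent.Lib.MP_bc213e_ag.TE.Lat

open Pool.Agent.Lib.MP_bc213e_ag.Hyp Pool.Agent.Lib.MP_bc213e_ag.KBB Pool.Agent.Lib.MP_bc213e_ag.OW
  WithZero Module

variable {K K' I ι : Type} [Field K] [Algebra ℂ K] [Field K'] [Algebra ℂ K'] [Algebra K K']
  [IsScalarTower ℂ K K'] [Fintype I] (Λ : Lat K K' I) [Fintype ι] {x g : ι → Kˣ}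

variable (x g) in
/-- Global sections of the twist by `t L + a H`. -/
def SE (t : ℤ) (a : ℕ) : Submodule ℂ K' where
  carrier := {T | ∀ i, T / algebraMap K K' (fr x g t a i) ∈ Λ.M x (fun _ => 0) i}
  add_mem' := fun ha hb i => by
    rw [add_div]
    exact add_mem (ha i) (hb i)
  zero_mem' := fun i => by
    rw [zero_div]
    exact zero_mem _
  smul_mem' := fun c s hs i => by
    rw [smul_div_assoc]
    exact Submodule.smul_of_tower_mem _ c (hs i)

omit [Fintype ι] in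
theorem mem_SE [Nonempty ι] {t : ℤ} {a : ℕ} {T : K'} : T ∈ Λ.SE x g t a ↔ T ∈ Λ.sp ∧
    ∀ i w, PrimeDiv (chart x i) w → T / algebraMap K K' (fr x g t a i) ∈ Λ.R w 0 := by
  obtain ⟨i₀⟩ := ‹Nonempty ι›
  refine ⟨fun h => ⟨?_, fun i => (h i).2⟩, fun h i => ⟨?_, h.2 i⟩⟩
  · have h1 := Λ.sp_mul (fr x g t a i₀) (h i₀).1
    rwa [mul_div_cancel₀ _ ((map_ne_zero _).2 (fr_ne x g t a i₀))] at h1
  · rw [div_eq_inv_mul, ← map_inv₀]
    exact Λ.sp_mul _ h.1

theorem uniform [Nonempty ι]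
    (normal : ∀ i, IsFractionRing (chart x i) K ∧ IsIntegrallyClosed (chart x i))
    (hc : Cart x g) (hn : Nef x g) :
    ∃ (P : MvPolynomial (Fin 2) ℚ) (a₀ : ℕ), ∀ t a : ℕ, a₀ ≤ a →
      FiniteDimensional ℂ (Λ.SE x g t a) ∧
      (finrank ℂ (Λ.SE x g t a) : ℚ) = MvPolynomial.eval ![(t : ℚ), (a : ℚ)] P := by
  let F : Shf (up K' x) := ⟨fun i => (Λ.M x (fun _ => 0) i).restrictScalars ℂ,
    fun i s hs r hr => (Λ.M x (fun _ => 0) i).smul_mem ⟨s, hs⟩ hr,
    fun i l r hr => Λ.M_glue (fun i => (normal i).1) _ i l hr⟩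
  have e : ∀ t a, Λ.SE x g t a = F.Sc (up K' g) t a := fun t a => Submodule.ext fun T => by
    rw [Shf.mem_Sc]
    simp only [fr_up]
    rfl
  obtain ⟨P, a₀, h⟩ := F.uniform (cart_up hc) (nef_up hn) fun i => by
    have := (normal i).1
    have := (normal i).2
    obtain ⟨B, hB⟩ := Λ.M_fg (x := x) (i := i) (k := fun _ => 0) one_ne_zero fun w _ => by simp
    exact ⟨B, fun r => by rw [hB]; rfl⟩
  exact ⟨P, a₀, fun t a ha => by rw [e]; exact h t a ha⟩

/-- The sheaf embeds into a sum of copies of `O (c H)`. -/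
theorem bound [Nonempty ι]
    (normal : ∀ i, IsFractionRing (chart x i) K ∧ IsIntegrallyClosed (chart x i)) (g : ι → Kˣ) :
    ∃ c : ℕ, ∀ (t : ℤ) (a : ℕ), FiniteDimensional ℂ (SecS x g t (a + c)) →
      FiniteDimensional ℂ (Λ.SE x g t a) ∧
      finrank ℂ (Λ.SE x g t a) ≤ Fintype.card I * finrank ℂ (SecS x g t (a + c)) := by
  classical
  choose c c1 c0 hc using fun i => by
    have := (normal i).1
    have := (normal i).2
    exact Λ.coef (chart_fg x i)
  obtain ⟨k, hk⟩ := forms_pow (x := x) id c c1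
  let θ : K := ∏ j, c j * (x j : K) ^ k
  have θ0 : θ ≠ 0 := Finset.prod_ne_zero_iff.2 fun j _ =>
    mul_ne_zero (c0 j) (pow_ne_zero _ (x j).ne_zero)
  have hθ : ∀ l, ∃ r ∈ chart x l, θ = r * c l * (x l : K) ^ (k * Fintype.card ι) := fun l => by
    refine ⟨∏ j ∈ Finset.univ.erase l, c j * ((x j : K) / x l) ^ k, prod_mem fun j _ => hk j l, ?_⟩
    have e : c l = c l * ((x l : K) / x l) ^ k := by
      rw [div_self (x l).ne_zero, one_pow, mul_one]
    rw [e, Finset.prod_erase_mul _ (fun j => c j * ((x j : K) / x l) ^ k) (Finset.mem_univ l),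
      pow_mul, ← Finset.card_univ, ← Finset.prod_const, ← Finset.prod_mul_distrib]
    refine Finset.prod_congr rfl fun j _ => ?_
    rw [div_pow, mul_assoc, div_mul_cancel₀ _ (pow_ne_zero _ (x l).ne_zero)]
  refine ⟨k * Fintype.card ι, fun t a fd => ?_⟩
  let ψ : (I → SecS x g t (a + k * Fintype.card ι)) →ₗ[ℂ] K' :=
    ∑ i, ((LinearMap.toSpanSingleton K K' (θ⁻¹ • Λ.ξ i)).restrictScalars ℂ ∘ₗ
      (SecS x g t _).subtype) ∘ₗ LinearMap.proj i
  have h1 : Λ.SE x g t a ≤ LinearMap.range ψ := fun T hT => by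
    obtain ⟨h2, h3⟩ := Λ.mem_SE.1 hT
    obtain ⟨b, rfl⟩ := Λ.mem_sp.1 h2
    refine ⟨fun i => ⟨θ * b i, sec_iff_fr.2 fun l => ?_⟩, ?_⟩
    · obtain ⟨r, hr, e⟩ := hθ l
      have h4 := hc l (fun i => (fr x g t a l)⁻¹ * b i) (fun w hw => by
        have h5 := h3 l w hw
        rw [div_eq_inv_mul, ← map_inv₀, ← Algebra.smul_def, Finset.smul_sum] at h5
        simpa only [smul_smul] using h5) i
      have e1 : θ * b i / fr x g t (a + k * Fintype.card ι) l =
          r * (c l * ((fr x g t a l)⁻¹ * b i)) := by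
        rw [mul_comm θ, uni_div, e, mul_div_cancel_right₀ _ (pow_ne_zero _ (x l).ne_zero)]
        ring
      rw [e1]
      exact mul_mem hr h4
    · rw [LinearMap.sum_apply]
      refine Finset.sum_congr rfl fun i _ => ?_
      change (θ * b i) • θ⁻¹ • Λ.ξ i = _
      rw [smul_smul, mul_right_comm, mul_inv_cancel₀ θ0, one_mul]
  refine ⟨Submodule.finiteDimensional_of_le h1, (Submodule.finrank_mono h1).trans
    (ψ.finrank_range_le.trans_eq ?_)⟩
  rw [finrank_pi_fintype, Finset.sum_const, Finset.card_univ, smul_eq_mul]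

end Pool.Agent.Lib.MP_bc213e_ag.TE.Lat
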