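import Pool.Agent.Lib.MP_bc213e_ag.KBB.Main
import Pool.Agent.Lib.MP_bc213e_ag.OW.E.Lin

/-! Quasi-coherent subsheaves of a constant sheaf. -/

namespace Pool.Agent.Lib.MP_bc213e_ag.TE

open Pool.Agent.Lib.MP_bc213e_ag.Hyp Pool.Agent.Lib.MP_bc213e_ag.KBB

noncomputable section

variable {K ι : Type} [Field K] [Algebra ℂ K] {x g : ι → Kˣ}

/-- A quasi-coherent subsheaf of the constant sheaf `K`. -/
structure Shf (x : ι → Kˣ) where
  F : ι → Submodule ℂ K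
  mul : ∀ i, ∀ s ∈ chart x i, ∀ r ∈ F i, s * r ∈ F i
  glue : ∀ i l, ∀ r ∈ F i, ∃ e : ℕ, r * ((x i : K) / x l) ^ e ∈ F l

namespace Shf

variable (F : Shf x)

theorem of_eq {i : ι} {r s u : K} (h : r ∈ F.F i) (hu : u ∈ chart x i) (e : s = u * r) :
    s ∈ F.F i := e ▸ F.mul i u hu r h

theorem l2_symm {i l : ι} {r : K} (h : L2 x F.F i l r) : L2 x F.F l i r := by
  obtain ⟨e, he⟩ := h
  obtain ⟨e', he'⟩ := F.glue i l _ he
  refine ⟨e', F.of_eq he' (pow_mem (Basic_mem x l i) e) ?_⟩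
  rw [mul_assoc r, mul_left_comm, ← mul_assoc (_ ^ e), ← mul_pow,
    div_mul_div_cancel₀ (x l).ne_zero, div_self (x i).ne_zero, one_pow, one_mul]

theorem l2_of_mem {i : ι} (l : ι) {r : K} (h : r ∈ F.F i) : L2 x F.F i l r :=
  ⟨0, by simpa using h⟩

theorem l2_add {i l : ι} {r s : K} (hr : L2 x F.F i l r) (hs : L2 x F.F i l s) :
    L2 x F.F i l (r + s) := by
  obtain ⟨e, he⟩ := hr
  obtain ⟨e', he'⟩ := hs
  have h := Basic_mem x i l
  refine ⟨e + e', ?_⟩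
  rw [add_mul]
  exact add_mem (F.of_eq he (pow_mem h e') (by ring)) (F.of_eq he' (pow_mem h e) (by ring))

theorem l2_sub {i l : ι} {r s : K} (hr : L2 x F.F i l r) (hs : L2 x F.F i l s) :
    L2 x F.F i l (r - s) := by
  obtain ⟨e, he⟩ := hs
  rw [sub_eq_add_neg]
  exact F.l2_add hr ⟨e, by simpa using he⟩

theorem l2_mul {i l : ι} {s r : K} (hs : L2 x (OX x) i l s) (h : L2 x F.F i l r) :
    L2 x F.F i l (s * r) := by
  obtain ⟨e, he⟩ := hs
  obtain ⟨e', he'⟩ := h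
  exact ⟨e + e', F.of_eq he' he (by ring)⟩

theorem l2_fr (hc : Cart x g) {t : ℤ} {a : ℕ} {i l : ι} {r : K}
    (h : L2 x F.F i l (r / fr x g t a i)) : L2 x F.F l i (r / fr x g t a l) := by
  have := F.l2_mul (fr_trans hc t a i l) (F.l2_symm h)
  rwa [mul_comm, div_mul_div_cancel₀ (fr_ne x g t a i)] at this

theorem l3_add {i l j : ι} {r s : K} (hr : L3 x F.F i l j r) (hs : L3 x F.F i l j s) :
    L3 x F.F i l j (r + s) := by
  obtain ⟨e, he⟩ := hr
  obtain ⟨e', he'⟩ := hs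
  have h := mul_mem (Basic_mem x i l) (Basic_mem x i j)
  refine ⟨e + e', ?_⟩
  rw [add_mul, add_mul]
  exact add_mem (F.of_eq he (pow_mem h e') (by ring)) (F.of_eq he' (pow_mem h e) (by ring))

theorem l3_sub {i l j : ι} {r s : K} (hr : L3 x F.F i l j r) (hs : L3 x F.F i l j s) :
    L3 x F.F i l j (r - s) := by
  obtain ⟨e, he⟩ := hs
  rw [sub_eq_add_neg]
  exact F.l3_add hr ⟨e, by simpa using he⟩

theorem l3_of_12 {i l : ι} (j : ι) {r : K} (h : L2 x F.F i l r) : L3 x F.F i l j r := by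
  obtain ⟨e, he⟩ := h
  exact ⟨e, F.of_eq he (pow_mem (Basic_mem x i j) e) (by ring)⟩

theorem l3_of_13 {i j : ι} (l : ι) {r : K} (h : L2 x F.F i j r) : L3 x F.F i l j r := by
  obtain ⟨e, he⟩ := h
  exact ⟨e, F.of_eq he (pow_mem (Basic_mem x i l) e) (by ring)⟩

theorem l3_of_23 (hc : Cart x g) {t : ℤ} {a : ℕ} (i : ι) {l j : ι} {r : K}
    (h : L2 x F.F l j (r / fr x g t a l)) : L3 x F.F i l j (r / fr x g t a i) := by
  obtain ⟨e, he⟩ := h
  obtain ⟨e₁, h1⟩ := F.glue l i _ he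
  obtain ⟨e₂, h2⟩ := fr_trans hc t a l i
  have h3 : (x j : K) / x i = (x j : K) / x l * ((x l : K) / x i) :=
    (div_mul_div_cancel₀ (x l).ne_zero).symm
  refine ⟨e + e₁ + e₂, F.of_eq h1 (mul_mem (mul_mem (pow_mem (Basic_mem x i l) (2 * e))
    (pow_mem (Basic_mem x i j) (e₁ + e₂))) h2) ?_⟩
  have := fr_ne x g t a l
  rw [h3]
  generalize (x j : K) / x l = u
  generalize (x l : K) / x i = v
  field_simp
  ring

/-- The zero sheaf. -/
def bot (x : ι → Kˣ) : Shf x :=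
  ⟨(Idl.bot x).J, (Idl.bot x).mul, (Idl.bot x).glue⟩

/-- The sheaf generated by `F` and the section `μ` of the twist by `c H`. -/
def adj (μ : K) (c : ℕ) : Shf x where
  F i :=
    { carrier := {r | ∃ s ∈ chart x i, r - s * (μ / (x i : K) ^ c) ∈ F.F i}
      add_mem' := fun ⟨s, hs, h⟩ ⟨s', hs', h'⟩ => ⟨s + s', add_mem hs hs', by
        rw [add_mul, add_sub_add_comm]
        exact add_mem h h'⟩
      zero_mem' := ⟨0, zero_mem _, by simp⟩
      smul_mem' := fun c r ⟨s, hs, h⟩ => ⟨c • s, Subalgebra.smul_mem _ hs c, by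
        rw [smul_mul_assoc, ← smul_sub]
        exact Submodule.smul_mem _ c h⟩ }
  mul := fun i s' hs' r ⟨s, hs, h⟩ => ⟨s' * s, mul_mem hs' hs, by
    rw [mul_assoc, ← mul_sub]
    exact F.mul i s' hs' _ h⟩
  glue := fun i l r ⟨s, hs, h⟩ => by
    have hu := Basic_mem x l i
    obtain ⟨e₁, h1⟩ := chart_trans x i l hs
    obtain ⟨e₂, h2⟩ := F.glue i l _ h
    refine ⟨e₁ + e₂ + c, _, mul_mem h1 (pow_mem hu e₂),
      F.of_eq h2 (pow_mem hu (e₁ + c)) ?_⟩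
    have h3 : μ / (x l : K) ^ c = μ / (x i : K) ^ c * ((x i : K) / x l) ^ c := by
      rw [div_pow, div_mul_div_cancel₀ (pow_ne_zero _ (x i).ne_zero)]
    rw [h3]
    ring

theorem mem_adj {μ : K} {c : ℕ} {i : ι} {r : K} :
    r ∈ (F.adj μ c).F i ↔ ∃ s ∈ chart x i, r - s * (μ / (x i : K) ^ c) ∈ F.F i := Iff.rfl

/-- The ideal of the functions that multiply `μ` into `F`. -/
def colon (μ : K) (c : ℕ) : Idl x where
  J i :=
    { carrier := {r | r ∈ chart x i ∧ r * (μ / (x i : K) ^ c) ∈ F.F i}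
      add_mem' := fun ha hb => ⟨add_mem ha.1 hb.1, by
        rw [add_mul]
        exact add_mem ha.2 hb.2⟩
      zero_mem' := ⟨zero_mem _, by
        rw [zero_mul]
        exact zero_mem _⟩
      smul_mem' := fun c r hr => ⟨Subalgebra.smul_mem _ hr.1 c, by
        rw [smul_mul_assoc]
        exact Submodule.smul_mem _ c hr.2⟩ }
  le := fun _ _ h => h.1
  mul := fun i s hs r hr => ⟨mul_mem hs hr.1, F.of_eq hr.2 hs (mul_assoc _ _ _)⟩
  glue := fun i l r hr => by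
    have hu := Basic_mem x l i
    obtain ⟨e₁, h1⟩ := chart_trans x i l hr.1
    obtain ⟨e₂, h2⟩ := F.glue i l _ hr.2
    refine ⟨e₁ + e₂, ?_, F.of_eq h2 (pow_mem hu (e₁ + c)) ?_⟩
    · rw [pow_add, ← mul_assoc]
      exact mul_mem h1 (pow_mem hu e₂)
    · have h3 : μ / (x l : K) ^ c = μ / (x i : K) ^ c * ((x i : K) / x l) ^ c := by
        rw [div_pow, div_mul_div_cancel₀ (pow_ne_zero _ (x i).ne_zero)]
      rw [h3]
      ring

theorem mem_colon {μ : K} {c : ℕ} {i : ι} {r : K} :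
    r ∈ (F.colon μ c).J i ↔ r ∈ chart x i ∧ r * (μ / (x i : K) ^ c) ∈ F.F i := Iff.rfl

theorem l2_colon {μ : K} {c : ℕ} {i l : ι} {r : K} (h1 : L2 x (OX x) i l r)
    (h2 : L2 x F.F i l (r * (μ / (x i : K) ^ c))) : L2 x (F.colon μ c).J i l r := by
  obtain ⟨e, he⟩ := h1
  obtain ⟨e', he'⟩ := h2
  have hx := Basic_mem x i l
  refine ⟨e + e', F.mem_colon.2 ⟨?_, F.of_eq he' (pow_mem hx e) (by ring)⟩⟩
  rw [pow_add, ← mul_assoc]
  exact mul_mem (mem_OX.1 he) (pow_mem hx _)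

theorem l2_of_colon {μ : K} {c : ℕ} {i l : ι} {r : K} (h : L2 x (F.colon μ c).J i l r) :
    L2 x F.F i l (r * (μ / (x i : K) ^ c)) := by
  obtain ⟨e, he⟩ := h
  exact ⟨e, F.of_eq (F.mem_colon.1 he).2 (one_mem _) (by ring)⟩

theorem l3_colon {μ : K} {c : ℕ} {i l j : ι} {r : K} (h1 : L3 x (OX x) i l j r)
    (h2 : L3 x F.F i l j (r * (μ / (x i : K) ^ c))) : L3 x (F.colon μ c).J i l j r := by
  obtain ⟨e, he⟩ := h1
  obtain ⟨e', he'⟩ := h2
  have hx := mul_mem (Basic_mem x i l) (Basic_mem x i j)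
  refine ⟨e + e', F.mem_colon.2 ⟨?_, F.of_eq he' (pow_mem hx e) (by ring)⟩⟩
  have h := mul_mem (mem_OX.1 he) (pow_mem hx e')
  have e1 : r * ((x l : K) / x i) ^ (e + e') * ((x j : K) / x i) ^ (e + e') =
      r * ((x l : K) / x i) ^ e * ((x j : K) / x i) ^ e *
        ((x l : K) / x i * ((x j : K) / x i)) ^ e' := by ring
  rw [e1]
  exact h

variable (g)

/-- 0-cochains of `F (t L + a H)`. -/
def C0 (t : ℤ) (a : ℕ) : Submodule ℂ (ι → K) where
  carrier := {s | ∀ i, s i / fr x g t a i ∈ F.F i}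
  add_mem' := fun ha hb i => by
    rw [Pi.add_apply, add_div]
    exact add_mem (ha i) (hb i)
  zero_mem' := fun i => by
    rw [Pi.zero_apply, zero_div]
    exact zero_mem _
  smul_mem' := fun c s hs i => by
    rw [Pi.smul_apply, smul_div_assoc]
    exact Submodule.smul_mem _ c (hs i)

/-- Global sections of `F (t L + a H)`. -/
def Sc (t : ℤ) (a : ℕ) : Submodule ℂ K := (F.C0 g t a).comap (LinearMap.pi fun _ => LinearMap.id)

theorem mem_Sc {t : ℤ} {a : ℕ} {s : K} : s ∈ F.Sc g t a ↔ ∀ i, s / fr x g t a i ∈ F.F i := Iff.rfl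

/-- Vanishing of the first cohomology of `F (t L + a H)`. -/
def H1z (t : ℤ) (a : ℕ) : Prop :=
  ∀ ξ : ι → ι → K, (∀ i l, L2 x F.F i l (ξ i l / fr x g t a i)) →
    (∀ i l j, ξ i l + ξ l j = ξ i j) → ∃ η ∈ F.C0 g t a, ∀ i l, ξ i l = η l - η i

end Shf

end

end Pool.Agent.Lib.MP_bc213e_ag.TE
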