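import Pool.Agent.Lib.MP_bc213e_ag.TE.C.Cech

/-! Twists by the hyperplane divisor, and a lower bound for the sections. -/

namespace Pool.Agent.Lib.MP_bc213e_ag.TE.Lat

open Pool.Agent.Lib.MP_bc213e_ag.Hyp Pool.Agent.Lib.MP_bc213e_ag.KBB Pool.Agent.Lib.MP_bc213e_ag.OW
  WithZero Module Filter

variable {K K' I : Type} [Field K] [Algebra ℂ K] [Field K'] [Algebra ℂ K'] [Algebra K K']
  [IsScalarTower ℂ K K'] [Fintype I] (Λ : Lat K K' I)

section shift

variable {N : ℕ} {x : Fin (N + 1) → Kˣ} {H : Prm x →₀ ℤ}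

theorem mem_shift
    (hH : ∀ i (w : Prm x), PrimeDiv (chart x i) w.1 → H w = ord w.1 ((x 0 : K) / x i))
    (L : Prm x →₀ ℤ) (a b : ℕ) (T : K') :
    T ∈ Λ.Tw (L + a • H) b ↔ algebraMap K K' ((x 0 : K) ^ a) * T ∈ Λ.Tw L (a + b) := by
  rw [mem_Tw, mem_Tw]
  refine and_congr ⟨Λ.sp_mul _, fun h => ?_⟩
    (forall_congr' fun i => forall_congr' fun w => forall_congr' fun hw => ?_)
  · have h1 := Λ.sp_mul ((x 0 : K) ^ a)⁻¹ h
    rwa [← mul_assoc, ← map_mul, inv_mul_cancel₀ (pow_ne_zero _ (x 0).ne_zero), map_one,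
      one_mul] at h1
  have u0 : (x 0 : K) / x i ≠ 0 := div_ne_zero (Units.ne_zero _) (Units.ne_zero _)
  have h1 : w.1 (((x 0 : K) / x i) ^ a) = exp (-(a • H w)) := by
    rw [map_pow, (ord_eq_iff w.1 u0 _).1 (hH i w hw).symm, ← exp_nsmul, smul_neg]
  have e : ((x i : K) ^ (a + b))⁻¹ * (x 0 : K) ^ a = ((x 0 : K) / x i) ^ a * ((x i : K) ^ b)⁻¹ := by
    rw [div_pow, pow_add]
    field_simp
  rw [← Λ.mul_iff h1, Finsupp.add_apply, Finsupp.smul_apply, add_neg_cancel_right, ← mul_assoc,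
    ← mul_assoc, ← map_mul, ← map_mul, e]

theorem finrank_shift
    (hH : ∀ i (w : Prm x), PrimeDiv (chart x i) w.1 → H w = ord w.1 ((x 0 : K) / x i))
    (L : Prm x →₀ ℤ) (a b : ℕ) :
    finrank ℂ (Λ.Tw (L + a • H) b) = finrank ℂ (Λ.Tw L (a + b)) := by
  have u0 : algebraMap K K' ((x 0 : K) ^ a) ≠ 0 :=
    (map_ne_zero _).2 (pow_ne_zero a (Units.ne_zero _))
  have e : (Λ.Tw (L + a • H) b).map (LinearMap.mulLeft ℂ (algebraMap K K' ((x 0 : K) ^ a))) =
      Λ.Tw L (a + b) := by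
    ext s
    refine ⟨?_, fun hs => ⟨_⁻¹ * s, ?_, mul_inv_cancel_left₀ u0 s⟩⟩
    · rintro ⟨s, hs, rfl⟩
      exact (Λ.mem_shift hH L a b s).1 hs
    · refine (Λ.mem_shift hH L a b _).2 ?_
      rwa [mul_inv_cancel_left₀ u0]
  rw [← e]
  exact (Submodule.equivMapOfInjective _ (mul_right_injective₀ u0) _).finrank_eq

theorem chi_shift
    (normal : ∀ i, IsFractionRing (chart x i) K ∧ IsIntegrallyClosed (chart x i))
    (hH : ∀ i (w : Prm x), PrimeDiv (chart x i) w.1 → H w = ord w.1 ((x 0 : K) / x i))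
    (L : Prm x →₀ ℤ) : ∀ᶠ a : ℕ in atTop,
      (finrank ℂ (Λ.Tw L a) : ℚ) = (chi (Λ.TS (L + a • H)) : ℚ) := by
  obtain ⟨p, -, hp⟩ := Λ.cech normal L
  filter_upwards [hp] with a ha
  obtain ⟨q, q0, hq⟩ := Λ.cech normal (L + a • H)
  have h1 : Tendsto (fun b : ℕ => a + b) atTop atTop :=
    tendsto_atTop_mono (fun b => Nat.le_add_left b a) tendsto_id
  have e : q = p.comp (Polynomial.C (a : ℚ) + Polynomial.X) := KBF.eq_of_eventually (by
    filter_upwards [hq, h1.eventually hp] with b h2 h3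
    rw [← h2, Λ.finrank_shift hH, h3, Polynomial.eval_comp]
    simp)
  rw [ha, ← q0, e, Polynomial.eval_comp]
  simp

end shift

/-- The structure sheaf embeds into a twist of the sheaf. -/
theorem lower {ι : Type} [Fintype ι] [Nonempty ι] {x : ι → Kˣ}
    (frac : ∀ i, IsFractionRing (chart x i) K) (g : ι → Kˣ) (i₀ : I) :
    ∃ c : ℕ, ∀ (t : ℤ) (a : ℕ), FiniteDimensional ℂ (Λ.SE x g t (a + c)) →
      finrank ℂ (SecS x g t a) ≤ finrank ℂ (Λ.SE x g t (a + c)) := by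
  classical
  choose c c1 c0 hc using fun i => Λ.den _ (chart_fg x i) (frac i)
  obtain ⟨k, hk⟩ := forms_pow (x := x) id c c1
  let θ : K := ∏ j, c j * (x j : K) ^ k
  have θ0 : θ ≠ 0 := Finset.prod_ne_zero_iff.2 fun j _ =>
    mul_ne_zero (c0 j) (pow_ne_zero _ (x j).ne_zero)
  have hθ : ∀ l, ∃ r ∈ chart x l, θ = r * c l * (x l : K) ^ (k * Fintype.card ι) := fun l => by
    refine ⟨∏ j ∈ Finset.univ.erase l, c j * ((x j : K) / x l) ^ k, prod_mem fun j _ => hk j l, ?_⟩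
    have e : c l = c l * ((x l : K) / x l) ^ k := by
      rw [div_self (x l).ne_zero, one_pow, mul_one]
    rw [e, Finset.prod_erase_mul _ (fun j => c j * ((x j : K) / x l) ^ k) (Finset.mem_univ l),
      pow_mul, ← Finset.card_univ, ← Finset.prod_const, ← Finset.prod_mul_distrib]
    refine Finset.prod_congr rfl fun j _ => ?_
    rw [div_pow, mul_assoc, div_mul_cancel₀ _ (pow_ne_zero _ (x l).ne_zero)]
  refine ⟨k * Fintype.card ι, fun t a fd => ?_⟩
  let ψ : K →ₗ[ℂ] K' := (LinearMap.toSpanSingleton K K' (θ • Λ.ξ i₀)).restrictScalars ℂ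
  have h0 : Function.Injective ψ :=
    smul_left_injective K (smul_ne_zero θ0 (Λ.ind.ne_zero i₀))
  rw [(Submodule.equivMapOfInjective ψ h0 _).finrank_eq]
  refine Submodule.finrank_mono ?_
  rintro _ ⟨s, hs, rfl⟩
  refine Λ.mem_SE.2 ⟨Submodule.smul_mem (Submodule.span K (Set.range Λ.ξ)) s
    (Submodule.smul_mem _ θ (Submodule.subset_span ⟨i₀, rfl⟩)), fun l w hw => ?_⟩
  obtain ⟨r, hr, e⟩ := hθ l
  have h1 := Λ.mul_one' ((hc l w hw).2 i₀) (hw.2.1 _ (mul_mem (sec_iff_fr.1 hs l) hr))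
  have e1 : s * θ / fr x g t (a + k * Fintype.card ι) l = s / fr x g t a l * r * c l := by
    rw [uni_div, e, mul_div_cancel_right₀ _ (pow_ne_zero _ (x l).ne_zero), mul_assoc]
  rw [← mul_assoc, ← map_mul, ← e1, map_div₀, div_mul_eq_mul_div, ← Algebra.smul_def,
    mul_smul] at h1
  exact h1

end Pool.Agent.Lib.MP_bc213e_ag.TE.Lat
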