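import Pool.Agent.Lib.MP_bc213e_ag.TE.C.Shf

/-! The uniform Hilbert polynomial of a coherent subsheaf of a constant sheaf. -/

namespace Pool.Agent.Lib.MP_bc213e_ag.TE

open Pool.Agent.Lib.MP_bc213e_ag.Hyp Pool.Agent.Lib.MP_bc213e_ag.KBB
  Pool.Agent.Lib.MP_bc213e_ag.OW.Ce

variable {K ι : Type} [Field K] [Algebra ℂ K] {x g : ι → Kˣ}

theorem uni_div (t : ℤ) (a c : ℕ) (μ s : K) (i : ι) :
    s * μ / fr x g t (a + c) i = s / fr x g t a i * (μ / (x i : K) ^ c) := by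
  have h := add_div_fr (x := x) (g := g) t 0 a c μ s i
  rwa [add_zero, fr_zero, mul_comm μ] at h

namespace Shf

variable (F : Shf x) (μ : K) (c : ℕ)

theorem h1_adj (hc : Cart x g) {t : ℤ} {a : ℕ} (h1 : F.H1z g t (a + c))
    (h2 : (F.colon μ c).H1z g t a) : (F.adj μ c).H1z g t (a + c) := by
  intro ξ hξ coc
  have key : ∀ i l, ∃ θ : K, L2 x (OX x) i l (θ / fr x g t a i) ∧
      L2 x F.F i l ((ξ i l - θ * μ) / fr x g t (a + c) i) := by
    intro i l
    obtain ⟨e, r, hr, hr'⟩ := hξ i l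
    have h0 : ((x l : K) / x i) ^ e ≠ 0 := pow_ne_zero _ (div_ne_zero (x l).ne_zero (x i).ne_zero)
    refine ⟨r / ((x l : K) / x i) ^ e * fr x g t a i, ⟨e, ?_⟩, e, ?_⟩
    · rw [mul_div_cancel_right₀ _ (fr_ne x g t a i), div_mul_cancel₀ _ h0]
      exact hr
    · rw [sub_div, uni_div, mul_div_cancel_right₀ _ (fr_ne x g t a i), sub_mul,
        mul_right_comm (r / _), div_mul_cancel₀ _ h0]
      exact hr'
  choose θ h3 h4 using key
  have k1 : ∀ i l j, L3 x (OX x) i l j ((θ i l + θ l j - θ i j) / fr x g t a i) := fun i l j => by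
    have h9 := (Idl.top x).l3_add ((Idl.top x).l3_add ((Idl.top x).l3_of_12 j (h3 i l))
      ((Idl.top x).l3_of_23 hc i (h3 l j))) ((Idl.top x).l3_neg ((Idl.top x).l3_of_13 l (h3 i j)))
    rwa [← add_div, ← sub_eq_add_neg, ← sub_div] at h9
  have k2 : ∀ i l j, L3 x F.F i l j
      ((θ i l + θ l j - θ i j) / fr x g t a i * (μ / (x i : K) ^ c)) := fun i l j => by
    have h9 := F.l3_sub (F.l3_of_13 l (h4 i j)) (F.l3_add (F.l3_of_12 j (h4 i l))
      (F.l3_of_23 hc i (h4 l j)))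
    rw [← add_div, ← sub_div] at h9
    have e : ξ i j - θ i j * μ - (ξ i l - θ i l * μ + (ξ l j - θ l j * μ)) =
        (θ i l + θ l j - θ i j) * μ := by linear_combination -coc i l j
    rwa [e, uni_div] at h9
  obtain ⟨η, h5, h6⟩ := h2 θ ⟨h3, fun i l j => F.l3_colon (k1 i l j) (k2 i l j)⟩
  have k3 : ∀ i l, L2 x F.F i l ((ξ i l - (η l - η i) * μ) / fr x g t (a + c) i) := fun i l => by
    have h9 := F.l2_add (h4 i l) (F.l2_of_colon (h6 i l))
    rw [← uni_div, ← add_div] at h9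
    have e : ξ i l - (η l - η i) * μ = ξ i l - θ i l * μ + (θ i l - (η l - η i)) * μ := by ring
    rw [e]
    exact h9
  obtain ⟨ζ, h7, h8⟩ := h1 (fun i l => ξ i l - (η l - η i) * μ) k3 fun i l j => by
    linear_combination coc i l j
  refine ⟨fun i => ζ i + η i * μ, fun i => ⟨_, h5 i, ?_⟩, fun i l => ?_⟩
  · rw [add_div, uni_div, add_sub_cancel_right]
    exact h7 i
  · linear_combination h8 i l

theorem rank_adj [Nonempty ι] (hc : Cart x g) {t : ℤ} {a : ℕ} (h1 : F.H1z g t (a + c)) :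
    Module.rank ℂ ((F.adj μ c).Sc g t (a + c)) =
      Module.rank ℂ ((F.colon μ c).H0 g t a) + Module.rank ℂ (F.Sc g t (a + c)) := by
  obtain ⟨i₀⟩ := ‹Nonempty ι›
  let δ : K →ₗ[ℂ] ι → K := LinearMap.pi fun _ => LinearMap.id
  let φ : (ι → K) →ₗ[ℂ] ι → K := LinearMap.mulRight ℂ fun _ => μ
  have hφ : ∀ s i, φ s i = s i * μ := fun _ _ => rfl
  have e1 : rk ((F.colon μ c).Z0 g t a) ((F.colon μ c).C0 g t a) =
      rk (((F.adj μ c).Sc g t (a + c)).map δ) (F.C0 g t (a + c)) := by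
    refine rk_map φ (fun ρ hρ => ?_) ?_ fun ρ hρ => ?_
    · obtain ⟨η, h2, h3⟩ := h1 (fun i l => (ρ l - ρ i) * μ) (fun i l => by
        rw [uni_div]
        exact F.l2_of_colon (hρ.2 i l)) fun i l j => by ring
      refine Submodule.mem_sup.2 ⟨δ (ρ i₀ * μ - η i₀), ⟨_, fun i => ⟨_, hρ.1 i, ?_⟩, rfl⟩, η, h2,
        funext fun i => ?_⟩
      · have e : ρ i₀ * μ - η i₀ = ρ i * μ - η i := by linear_combination -h3 i₀ i
        change (ρ i₀ * μ - η i₀) / _ - _ ∈ _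
        rw [e, sub_div, uni_div, sub_sub_cancel_left]
        exact neg_mem (h2 i)
      · change ρ i₀ * μ - η i₀ + η i = ρ i * μ
        linear_combination -h3 i₀ i
    · rintro _ ⟨s, hs, rfl⟩
      choose r hr hr' using fun i => F.mem_adj.1 (hs i)
      obtain ⟨u, hu⟩ : ∃ u : ι → K, ∀ i, u i / fr x g t a i = r i :=
        ⟨fun i => r i * fr x g t a i, fun i => mul_div_cancel_right₀ _ (fr_ne x g t a i)⟩
      have hu1 : ∀ i, u i / fr x g t a i ∈ chart x i := fun i => hu i ▸ hr i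
      have hu2 : ∀ i, (s - u i * μ) / fr x g t (a + c) i ∈ F.F i := fun i => by
        rw [sub_div, uni_div, hu i]
        exact hr' i
      refine ⟨u, ⟨hu1, fun i l => F.l2_colon ?_ ?_⟩, hu2⟩
      · have h1 := (Idl.top x).l2_fr hc ((Idl.top x).l2_of_mem i (hu1 l))
        have h2 := (Idl.top x).l2_neg ((Idl.top x).l2_of_mem l (hu1 i))
        have h3 := (Idl.top x).l2_add h1 h2
        rwa [← sub_eq_add_neg, ← sub_div] at h3
      · have h3 := F.l2_sub (F.l2_of_mem l (hu2 i)) (F.l2_fr hc (F.l2_of_mem i (hu2 l)))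
        have e : s - u i * μ - (s - u l * μ) = (u l - u i) * μ := by ring
        rwa [← sub_div, e, uni_div] at h3
    · refine forall_congr' fun i => ?_
      rw [hφ, uni_div]
      exact ⟨fun h => ⟨hρ.1 i, h⟩, fun h => h.2⟩
  have e2 : rk ((F.adj μ c).Sc g t (a + c)) (F.Sc g t (a + c)) =
      rk (((F.adj μ c).Sc g t (a + c)).map δ) (F.C0 g t (a + c)) :=
    rk_map δ (fun s hs => Submodule.mem_sup_left ⟨s, hs, rfl⟩)
      (fun _ ⟨s, hs, e⟩ => ⟨s, hs, by rw [← e, sub_self]; exact zero_mem _⟩) fun _ _ => Iff.rfl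
  have e3 := rk_tower (A := (F.adj μ c).Sc g t (a + c)) (W := F.Sc g t (a + c)) bot_le
    fun s hs i => ⟨0, zero_mem _, by simpa using hs i⟩
  rw [rk_bot, rk_bot, e2, ← e1] at e3
  exact e3

variable (g) in
/-- The inductive statement. -/
def Good : Prop :=
  (∃ a₀ : ℕ, ∀ t a : ℕ, a₀ ≤ a → F.H1z g t a ∧ FiniteDimensional ℂ (F.Sc g t a)) ∧
    IsP fun t a => (Module.finrank ℂ (F.Sc g t a) : ℚ)

theorem good_bot [Nonempty ι] {F : Shf x} (h : ∀ i, F.F i = ⊥) : F.Good g := by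
  obtain ⟨i₀⟩ := ‹Nonempty ι›
  have e : ∀ t a, F.Sc g t a = ⊥ := fun t a => (Submodule.eq_bot_iff _).2 fun s hs => by
    have h1 := hs i₀
    rw [h, Submodule.mem_bot, div_eq_zero_iff] at h1
    exact h1.resolve_right (fr_ne x g t a i₀)
  refine ⟨⟨0, fun t a _ => ⟨fun ξ h1 _ => ⟨0, zero_mem _, fun i l => ?_⟩, ?_⟩⟩,
    IsP.zero.congr 0 fun t a _ => ?_⟩
  · obtain ⟨n, hn⟩ := h1 i l
    simpa [h, fr_ne, (x l).ne_zero, (x i).ne_zero] using hn
  · rw [e]
    infer_instance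
  · rw [e, finrank_bot, Nat.cast_zero]

theorem good_adj [Fintype ι] [Nonempty ι] (hc : Cart x g) (hn : Nef x g) (h : F.Good g) :
    (F.adj μ c).Good g := by
  obtain ⟨⟨a₁, h1⟩, p1⟩ := h
  obtain ⟨⟨a₂, h2⟩, p2⟩ := good hc hn (F.colon μ c)
  have key : ∀ t a : ℕ, a₁ + a₂ + c ≤ a →
      ((F.adj μ c).H1z g t a ∧ FiniteDimensional ℂ ((F.adj μ c).Sc g t a)) ∧
      Module.finrank ℂ ((F.adj μ c).Sc g t a) =
        Module.finrank ℂ ((F.colon μ c).H0 g t (a - c)) + Module.finrank ℂ (F.Sc g t a) := by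
    intro t a ha
    obtain ⟨a', rfl⟩ : ∃ a', a = a' + c := ⟨a - c, by omega⟩
    obtain ⟨z1, f1⟩ := h1 t (a' + c) (by omega)
    obtain ⟨z2, f2⟩ := h2 t a' (by omega)
    have e := F.rank_adj μ c hc z1
    rw [← Module.finrank_eq_rank ℂ (F.Sc g t (a' + c)),
      ← Module.finrank_eq_rank ℂ ((F.colon μ c).H0 g t a'), ← Nat.cast_add] at e
    rw [Nat.add_sub_cancel]
    exact ⟨⟨F.h1_adj μ c hc z1 z2, Module.finite_of_rank_eq_nat e⟩, Module.finrank_eq_of_rank_eq e⟩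
  refine ⟨⟨_, fun t a ha => (key t a ha).1⟩, ((p2.sub_shift c).add p1).congr (a₁ + a₂ + c) ?_⟩
  intro t a ha
  rw [(key t a ha).2, Nat.cast_add]

theorem ext' {F F' : Shf x} (h : ∀ i, F.F i = F'.F i) : F = F' := by
  obtain ⟨J, _, _⟩ := F
  obtain ⟨J', _, _⟩ := F'
  obtain rfl : J = J' := funext h
  rfl

theorem good_span [Fintype ι] [Nonempty ι] (hc : Cart x g) (hn : Nef x g) (c : ℕ) (B : Finset K) :
    ∃ F : Shf x, F.Good g ∧ ∀ i r, r ∈ F.F i ↔
      r ∈ Submodule.span (chart x i) ((fun μ => μ / (x i : K) ^ c) '' B) := by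
  classical
  induction B using Finset.induction_on with
  | empty => exact ⟨bot x, good_bot fun _ => rfl, fun i r => by simp [bot, Idl.bot]⟩
  | insert μ B _ ih =>
    obtain ⟨F, h1, h2⟩ := ih
    refine ⟨F.adj μ c, F.good_adj μ c hc hn h1, fun i r => ?_⟩
    rw [Finset.coe_insert, Set.image_insert_eq, Submodule.mem_span_insert, mem_adj]
    constructor
    · rintro ⟨s, hs, h⟩
      exact ⟨⟨s, hs⟩, _, (h2 i _).1 h, (add_sub_cancel _ _).symm⟩
    · rintro ⟨s, z, hz, rfl⟩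
      exact ⟨s, s.2, (h2 i _).2 (by
        rwa [show (s : K) * (μ / (x i : K) ^ c) = s • (μ / (x i : K) ^ c) from rfl,
          add_sub_cancel_left])⟩

/-- A coherent sheaf is generated by finitely many sections of a twist. -/
theorem exists_gen [Fintype ι]
    (fg : ∀ i, ∃ B : Finset K, ∀ r, r ∈ F.F i ↔ r ∈ Submodule.span (chart x i) (B : Set K)) :
    ∃ (c : ℕ) (B : Finset K), ∀ i r, r ∈ F.F i ↔
      r ∈ Submodule.span (chart x i) ((fun μ => μ / (x i : K) ^ c) '' B) := by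
  classical
  choose B hB using fg
  have h1 : ∀ i l r, ∃ e : ℕ, r ∈ B i → r * ((x i : K) / x l) ^ e ∈ F.F l := fun i l r => by
    by_cases h : r ∈ B i
    · exact (F.glue i l r ((hB i r).2 (Submodule.subset_span h))).imp fun _ he _ => he
    · exact ⟨0, fun h' => absurd h' h⟩
  choose e he using h1
  obtain ⟨c, hc⟩ : ∃ c, ∀ i l, ∀ r ∈ B i, e i l r ≤ c :=
    ⟨Finset.univ.sup fun i => Finset.univ.sup fun l => (B i).sup (e i l), fun i l r hr =>
      ((Finset.le_sup hr).trans (Finset.le_sup (f := fun l => (B i).sup (e i l))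
        (Finset.mem_univ l))).trans (Finset.le_sup
          (f := fun i => Finset.univ.sup fun l => (B i).sup (e i l)) (Finset.mem_univ i))⟩
  refine ⟨c, Finset.univ.biUnion fun i => (B i).image (· * (x i : K) ^ c), fun l r =>
    ⟨fun h => Submodule.span_mono (fun s hs => ?_) ((hB l r).1 h), fun h => ?_⟩⟩
  · refine ⟨s * (x l : K) ^ c, ?_, mul_div_cancel_right₀ _ (pow_ne_zero _ (x l).ne_zero)⟩
    exact Finset.mem_coe.2 (Finset.mem_biUnion.2 ⟨l, Finset.mem_univ _,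
      Finset.mem_image_of_mem _ hs⟩)
  · induction h using Submodule.span_induction with
    | mem s hs =>
      obtain ⟨_, h2, rfl⟩ := hs
      obtain ⟨i, -, h3⟩ := Finset.mem_biUnion.1 (Finset.mem_coe.1 h2)
      obtain ⟨s, h4, rfl⟩ := Finset.mem_image.1 h3
      obtain ⟨d, hd⟩ := Nat.exists_eq_add_of_le (hc i l s h4)
      refine F.of_eq (he i l s h4) (pow_mem (Basic_mem x l i) d) ?_
      change s * (x i : K) ^ c / (x l : K) ^ c = _
      rw [mul_div_assoc, ← div_pow, hd]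
      ring
    | zero => exact zero_mem _
    | add _ _ _ _ h h' => exact add_mem h h'
    | smul s _ _ h => exact F.mul l s s.2 _ h

/-- The Hilbert function of `F` with respect to `(L, H)` is a polynomial for `a ≥ a₀`, uniformly
in `t`. -/
theorem uniform [Fintype ι] [Nonempty ι] (hc : Cart x g) (hn : Nef x g)
    (fg : ∀ i, ∃ B : Finset K, ∀ r, r ∈ F.F i ↔ r ∈ Submodule.span (chart x i) (B : Set K)) :
    ∃ (P : MvPolynomial (Fin 2) ℚ) (a₀ : ℕ), ∀ t a : ℕ, a₀ ≤ a →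
      FiniteDimensional ℂ (F.Sc g t a) ∧
      (Module.finrank ℂ (F.Sc g t a) : ℚ) = MvPolynomial.eval ![(t : ℚ), (a : ℚ)] P := by
  obtain ⟨c, B, h⟩ := F.exists_gen fg
  obtain ⟨F', ⟨⟨a₀, h1⟩, P, a₁, h2⟩, h3⟩ := good_span hc hn c B
  obtain rfl : F = F' := ext' fun i => Submodule.ext fun r => (h i r).trans (h3 i r).symm
  exact ⟨P, a₀ + a₁, fun t a ha => ⟨(h1 t a (by omega)).2, h2 t a (by omega)⟩⟩

end Shf

end Pool.Agent.Lib.MP_bc213e_ag.TE
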