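import Pool.Agent.Lib.MP_bc213e_ag.TE.C.Uni

/-! Passing to a larger constant sheaf. -/

namespace Pool.Agent.Lib.MP_bc213e_ag.TE

open Pool.Agent.Lib.MP_bc213e_ag.Hyp Pool.Agent.Lib.MP_bc213e_ag.KBB

variable {K ι : Type} (K' : Type) [Field K] [Algebra ℂ K] [Field K'] [Algebra ℂ K'] [Algebra K K']
  [IsScalarTower ℂ K K'] {x g : ι → Kˣ}

/-- The images of the coordinates in `K'`. -/
def up (x : ι → Kˣ) : ι → K'ˣ := fun i => Units.map (algebraMap K K' : K →* K') (x i)

omit [Algebra ℂ K] [Algebra ℂ K'] [IsScalarTower ℂ K K'] in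
theorem coe_up (x : ι → Kˣ) (i : ι) : (up K' x i : K') = algebraMap K K' (x i) := rfl

omit [Algebra ℂ K] [Algebra ℂ K'] [IsScalarTower ℂ K K'] in
theorem up_div (x : ι → Kˣ) (i l : ι) :
    (up K' x i : K') / up K' x l = algebraMap K K' ((x i : K) / x l) :=
  (map_div₀ (algebraMap K K') _ _).symm

omit [Algebra ℂ K] [Algebra ℂ K'] [IsScalarTower ℂ K K'] in
theorem fr_up (x g : ι → Kˣ) (t : ℤ) (a : ℕ) (i : ι) :
    fr (up K' x) (up K' g) t a i = algebraMap K K' (fr x g t a i) := by
  rw [fr, fr, map_mul, map_zpow₀, map_pow, coe_up, coe_up]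

variable {K'}

theorem mem_chart_up {i : ι} {r : K'} :
    r ∈ chart (up K' x) i ↔ ∃ s ∈ chart x i, algebraMap K K' s = r := by
  have e : chart (up K' x) i = (chart x i).map (IsScalarTower.toAlgHom ℂ K K') := by
    rw [chart, chart, AlgHom.map_adjoin, ← Set.range_comp]
    exact congrArg _ (congrArg _ (funext fun l => up_div K' x l i))
  rw [e]
  exact Subalgebra.mem_map

theorem map_mem_chart {i : ι} {s : K} (h : s ∈ chart x i) :
    algebraMap K K' s ∈ chart (up K' x) i := mem_chart_up.2 ⟨s, h, rfl⟩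

theorem cart_up (h : Cart x g) : Cart (up K' x) (up K' g) := fun i j => by
  obtain ⟨e, he⟩ := h i j
  refine ⟨e, ?_⟩
  rw [up_div, up_div, ← map_pow, ← map_mul]
  exact map_mem_chart he

theorem nef_up (h : Nef x g) : Nef (up K' x) (up K' g) := fun t => by
  obtain ⟨N, h0, h1⟩ := h t
  refine ⟨N, h0, fun i => ?_⟩
  have key : ∀ r ∈ Submodule.span (chart x i) {s | Sec x g (N * t) N s},
      algebraMap K K' r ∈ Submodule.span (chart (up K' x) i)
        {s | Sec (up K' x) (up K' g) (N * t) N s} := fun r hr => by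
    induction hr using Submodule.span_induction with
    | mem s hs =>
      refine Submodule.subset_span (sec_iff_fr.2 fun l => ?_)
      rw [fr_up, ← map_div₀]
      exact map_mem_chart (hs l)
    | zero =>
      rw [map_zero]
      exact zero_mem _
    | add _ _ _ _ h h' =>
      rw [map_add]
      exact add_mem h h'
    | smul s r _ h =>
      rw [show s • r = (s : K) * r from rfl, map_mul]
      exact Submodule.smul_mem _ (⟨_, map_mem_chart s.2⟩ : chart (up K' x) i) h
  change fr _ _ _ _ _ ∈ _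
  rw [fr_up]
  exact key _ (h1 i)

end Pool.Agent.Lib.MP_bc213e_ag.TE
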